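import Mathlib

set_option autoImplicit false

namespace Pool.Agent.Results.MP_645dd0_co.Counter

open SimpleGraph

/-- the triangle 0 1 2 with pendant vertices 3, 4, 5 attached to 0, 1, 2 -/
def net : SimpleGraph (Fin 6) :=
  SimpleGraph.fromRel fun a b => (a.val < 3 ∧ b.val < 3) ∨ b.val = a.val + 3

/-- no copy of `net`, but adding any missing edge creates one -/
def Saturated {n : ℕ} (G : SimpleGraph (Fin n)) : Prop :=
  ¬ net.IsContained G ∧ ∀ u v, u ≠ v → ¬ G.Adj u v → net.IsContained (G ⊔ edge u v)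

/-- vertex 0 joined to the triangle 1 2 3 and to the edges 45, 67, ... -/
def H (n : ℕ) : SimpleGraph (Fin n) :=
  SimpleGraph.fromRel fun u v =>
    u.val = 0 ∨ (u.val ≤ 3 ∧ v.val ≤ 3) ∨ (4 ≤ u.val ∧ u.val / 2 = v.val / 2)

def G (n : ℕ) : SimpleGraph (Fin n) :=
  SimpleGraph.fromRel fun u v =>
    u.val = 0 ∨ (u.val = 1 ∧ v.val ≤ 5) ∨ (6 ≤ u.val ∧ u.val / 2 = v.val / 2)

theorem mk {n : ℕ} (K : SimpleGraph (Fin n)) (a b c d e f : Fin n)
    (h1 : K.Adj a b) (h2 : K.Adj a c) (h3 : K.Adj b c) (h4 : K.Adj a d) (h5 : K.Adj b e)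
    (h6 : K.Adj c f) (hn : [a.val, b.val, c.val, d.val, e.val, f.val].Nodup) :
    net.IsContained K := by
  refine ⟨⟨⟨![a, b, c, d, e, f], ?_⟩, ?_⟩⟩
  · intro x y h
    have s1 := h1.symm
    have s2 := h2.symm
    have s3 := h3.symm
    have s4 := h4.symm
    have s5 := h5.symm
    have s6 := h6.symm
    fin_cases x <;> fin_cases y <;> first | assumption | (exfalso; revert h; simp [net])
  · have h7 : [a, b, c, d, e, f].Nodup := List.Nodup.of_map Fin.val hn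
    exact List.nodup_ofFn.1 (by simpa using h7)

theorem G_adj {n : ℕ} (u v : Fin n) : (G n).Adj u v ↔ u.val ≠ v.val ∧
    ((u.val = 0 ∨ (u.val = 1 ∧ v.val ≤ 5) ∨ (6 ≤ u.val ∧ u.val / 2 = v.val / 2)) ∨
     (v.val = 0 ∨ (v.val = 1 ∧ u.val ≤ 5) ∨ (6 ≤ v.val ∧ v.val / 2 = u.val / 2))) := by
  simp only [G, fromRel_adj, Ne, Fin.ext_iff]

theorem H_adj {n : ℕ} (u v : Fin n) : (H n).Adj u v ↔ u.val ≠ v.val ∧
    ((u.val = 0 ∨ (u.val ≤ 3 ∧ v.val ≤ 3) ∨ (4 ≤ u.val ∧ u.val / 2 = v.val / 2)) ∨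
     (v.val = 0 ∨ (v.val ≤ 3 ∧ u.val ≤ 3) ∨ (4 ≤ v.val ∧ v.val / 2 = u.val / 2))) := by
  simp only [H, fromRel_adj, Ne, Fin.ext_iff]

theorem deg2 {n : ℕ} (x a b c : Fin n) (hx : 2 ≤ x.val) (h1 : (G n).Adj x a) (h2 : (G n).Adj x b)
    (h3 : (G n).Adj x c) (e1 : a ≠ b) (e2 : a ≠ c) (e3 : b ≠ c) : False := by
  rw [G_adj] at h1 h2 h3
  rw [Ne, Fin.ext_iff] at e1 e2 e3
  omega

theorem G_sat (n : ℕ) (hn : 8 ≤ n) (he : n % 2 = 0) : Saturated (G n) := by
  constructor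
  · rintro ⟨f⟩
    have inj : ∀ x y : Fin 6, x ≠ y → f x ≠ f y := fun x y h h' => h (f.injective h')
    have adj : ∀ x y : Fin 6, net.Adj x y → (G n).Adj (f x) (f y) := fun x y h => f.toHom.map_adj h
    have i1 := inj 0 1 (by decide)
    have i2 := inj 0 2 (by decide)
    have i3 := inj 1 2 (by decide)
    rw [Ne, Fin.ext_iff] at i1 i2 i3
    have : 2 ≤ (f 0).val ∨ 2 ≤ (f 1).val ∨ 2 ≤ (f 2).val := by omega
    rcases this with h | h | h
    · exact deg2 _ _ _ _ h (adj 0 1 (by simp [net])) (adj 0 2 (by simp [net]))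
        (adj 0 3 (by simp [net])) (inj _ _ (by decide)) (inj _ _ (by decide)) (inj _ _ (by decide))
    · exact deg2 _ _ _ _ h (adj 1 0 (by simp [net])) (adj 1 2 (by simp [net]))
        (adj 1 4 (by simp [net])) (inj _ _ (by decide)) (inj _ _ (by decide)) (inj _ _ (by decide))
    · exact deg2 _ _ _ _ h (adj 2 0 (by simp [net])) (adj 2 1 (by simp [net]))
        (adj 2 5 (by simp [net])) (inj _ _ (by decide)) (inj _ _ (by decide)) (inj _ _ (by decide))
  · have key : ∀ u v : Fin n, u.val < v.val → ¬ (G n).Adj u v →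
        net.IsContained (G n ⊔ edge u v) := by
      intro u v huv hna
      have hE : (G n ⊔ edge u v).Adj u v := Or.inr (by
        rw [edge_adj]; exact ⟨Or.inl ⟨rfl, rfl⟩, fun h => by rw [h] at huv; omega⟩)
      have hG : ∀ a b : Fin n, (G n).Adj a b → (G n ⊔ edge u v).Adj a b := fun a b h => Or.inl h
      rw [G_adj] at hna
      have hu := u.isLt
      have hv := v.isLt
      have pt : ∀ x : Fin n, 6 ≤ x.val → ∃ y : Fin n, y.val ≠ x.val ∧ y.val / 2 = x.val / 2 := by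
        intro x hx
        have := x.isLt
        by_cases h : x.val % 2 = 0
        · exact ⟨⟨x.val + 1, by omega⟩, by simp, by simp only; omega⟩
        · exact ⟨⟨x.val - 1, by omega⟩, by simp only; omega, by simp only; omega⟩
      obtain ⟨w, hw1, hw2, hw3, hw4⟩ : ∃ w : Fin n, 2 ≤ w.val ∧ w.val ≤ 5 ∧ w.val ≠ u.val ∧
          w.val ≠ v.val := by
        by_cases h2 : u.val = 2 ∨ v.val = 2
        · by_cases h3 : u.val = 3 ∨ v.val = 3
          · exact ⟨⟨4, by omega⟩, by simp only; omega⟩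
          · exact ⟨⟨3, by omega⟩, by simp only; omega⟩
        · exact ⟨⟨2, by omega⟩, by simp only; omega⟩
      obtain ⟨z, hz⟩ : ∃ z : Fin n, z.val = 0 := ⟨⟨0, by omega⟩, rfl⟩
      obtain ⟨o, ho⟩ : ∃ z : Fin n, z.val = 1 := ⟨⟨1, by omega⟩, rfl⟩
      by_cases h6 : 6 ≤ v.val
      · obtain ⟨v', hv1, hv2⟩ := pt v h6
        by_cases h7 : 6 ≤ u.val
        · obtain ⟨u', hu1, hu2⟩ := pt u h7
          refine mk _ z u v o u' v' (hG _ _ ?_) (hG _ _ ?_) hE (hG _ _ ?_) (hG _ _ ?_) (hG _ _ ?_) ?_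
          all_goals first | (rw [G_adj]; omega) | (simp; omega)
        · by_cases h1 : u.val = 1
          · obtain ⟨t, ht⟩ : ∃ t : Fin n, t.val = 7 - w.val := ⟨⟨7 - w.val, by omega⟩, rfl⟩
            refine mk _ z u v t w v' (hG _ _ ?_) (hG _ _ ?_) hE (hG _ _ ?_) (hG _ _ ?_)
              (hG _ _ ?_) ?_
            all_goals first | (rw [G_adj]; omega) | (simp; omega)
          · refine mk _ z u v w o v' (hG _ _ ?_) (hG _ _ ?_) hE (hG _ _ ?_) (hG _ _ ?_)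
              (hG _ _ ?_) ?_
            all_goals first | (rw [G_adj]; omega) | (simp; omega)
      · obtain ⟨t, ht⟩ : ∃ t : Fin n, t.val = 6 := ⟨⟨6, by omega⟩, rfl⟩
        refine mk _ z o u t w v (hG _ _ ?_) (hG _ _ ?_) (hG _ _ ?_) (hG _ _ ?_) (hG _ _ ?_) hE ?_
        all_goals first | (rw [G_adj]; omega) | (simp; omega)
    intro u v huv hna
    rcases lt_or_gt_of_ne (fun h => huv (Fin.ext h)) with h | h
    · exact key u v h hna
    · rw [edge_comm]; exact key v u h fun h' => hna h'.symm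

theorem card_eq (n : ℕ) (hn : 8 ≤ n) : (G n).edgeSet.ncard = (H n).edgeSet.ncard := by
  obtain ⟨a1, h1⟩ : ∃ z : Fin n, z.val = 1 := ⟨⟨1, by omega⟩, rfl⟩
  obtain ⟨a2, h2⟩ : ∃ z : Fin n, z.val = 2 := ⟨⟨2, by omega⟩, rfl⟩
  obtain ⟨a3, h3⟩ : ∃ z : Fin n, z.val = 3 := ⟨⟨3, by omega⟩, rfl⟩
  obtain ⟨a4, h4⟩ : ∃ z : Fin n, z.val = 4 := ⟨⟨4, by omega⟩, rfl⟩
  obtain ⟨a5, h5⟩ : ∃ z : Fin n, z.val = 5 := ⟨⟨5, by omega⟩, rfl⟩
  have e1 : (G n).edgeSet = insert s(a1, a4) (insert s(a1, a5) ((G n).edgeSet ∩ (H n).edgeSet)) := by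
    ext e
    induction e using Sym2.ind with
    | _ u v =>
      simp only [Set.mem_insert_iff, Set.mem_inter_iff, mem_edgeSet, G_adj, H_adj, Sym2.eq_iff,
        Fin.ext_iff]
      omega
  have e2 : (H n).edgeSet = insert s(a2, a3) (insert s(a4, a5) ((G n).edgeSet ∩ (H n).edgeSet)) := by
    ext e
    induction e using Sym2.ind with
    | _ u v =>
      simp only [Set.mem_insert_iff, Set.mem_inter_iff, mem_edgeSet, G_adj, H_adj, Sym2.eq_iff,
        Fin.ext_iff]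
      omega
  have nm : ∀ a b c d : Fin n, ¬ s(a, b) = s(c, d) → ¬ ((G n).Adj a b ∧ (H n).Adj a b) →
      ¬ ((G n).Adj c d ∧ (H n).Adj c d) →
      (insert s(a, b) (insert s(c, d) ((G n).edgeSet ∩ (H n).edgeSet))).ncard =
        ((G n).edgeSet ∩ (H n).edgeSet).ncard + 1 + 1 := by
    intro a b c d x1 x2 x3
    rw [Set.ncard_insert_of_notMem (by simpa [x1] using x2),
      Set.ncard_insert_of_notMem (by simpa using x3)]
  refine ((congrArg Set.ncard e1).trans (nm a1 a4 a1 a5 ?_ ?_ ?_)).trans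
    ((congrArg Set.ncard e2).trans (nm a2 a3 a4 a5 ?_ ?_ ?_)).symm
  all_goals simp only [G_adj, H_adj, Sym2.eq_iff, Fin.ext_iff]; omega

theorem not_iso (n : ℕ) (hn : 8 ≤ n) : IsEmpty (G n ≃g H n) := by
  refine ⟨fun φ => ?_⟩
  have inj : ∀ x y : Fin n, x.val ≠ y.val → φ.symm x ≠ φ.symm y :=
    fun x y h h' => h (congrArg Fin.val (φ.symm.injective h'))
  have adj : ∀ x y : Fin n, x.val ≤ 3 → y.val ≤ 3 → x.val ≠ y.val →
      (G n).Adj (φ.symm x) (φ.symm y) := fun x y h1 h2 h3 =>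
    φ.symm.map_adj_iff.2 (by rw [H_adj]; omega)
  obtain ⟨a0, h0⟩ : ∃ z : Fin n, z.val = 0 := ⟨⟨0, by omega⟩, rfl⟩
  obtain ⟨a1, h1⟩ : ∃ z : Fin n, z.val = 1 := ⟨⟨1, by omega⟩, rfl⟩
  obtain ⟨a2, h2⟩ : ∃ z : Fin n, z.val = 2 := ⟨⟨2, by omega⟩, rfl⟩
  obtain ⟨a3, h3⟩ : ∃ z : Fin n, z.val = 3 := ⟨⟨3, by omega⟩, rfl⟩
  have i1 := inj a1 a2 (by omega)
  have i2 := inj a1 a3 (by omega)
  have i3 := inj a2 a3 (by omega)
  rw [Ne, Fin.ext_iff] at i1 i2 i3
  have : 2 ≤ (φ.symm a1).val ∨ 2 ≤ (φ.symm a2).val ∨ 2 ≤ (φ.symm a3).val := by omega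
  rcases this with h | h | h
  · exact deg2 _ _ _ _ h (adj a1 a0 (by omega) (by omega) (by omega))
      (adj a1 a2 (by omega) (by omega) (by omega)) (adj a1 a3 (by omega) (by omega) (by omega))
      (inj _ _ (by omega)) (inj _ _ (by omega)) (inj _ _ (by omega))
  · exact deg2 _ _ _ _ h (adj a2 a0 (by omega) (by omega) (by omega))
      (adj a2 a1 (by omega) (by omega) (by omega)) (adj a2 a3 (by omega) (by omega) (by omega))
      (inj _ _ (by omega)) (inj _ _ (by omega)) (inj _ _ (by omega))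
  · exact deg2 _ _ _ _ h (adj a3 a0 (by omega) (by omega) (by omega))
      (adj a3 a1 (by omega) (by omega) (by omega)) (adj a3 a2 (by omega) (by omega) (by omega))
      (inj _ _ (by omega)) (inj _ _ (by omega)) (inj _ _ (by omega))

theorem result (n : ℕ) (hn : 8 ≤ n) (he : Even n) :
    ∃ K : SimpleGraph (Fin n), Saturated K ∧
      (∀ K' : SimpleGraph (Fin n), Saturated K' → K.edgeSet.ncard ≤ K'.edgeSet.ncard) ∧
      IsEmpty (K ≃g H n) := by
  have hG := G_sat n hn (Nat.even_iff.1 he)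
  obtain ⟨K, hK, hmin⟩ := Set.exists_min_image {K : SimpleGraph (Fin n) | Saturated K}
    (fun K => K.edgeSet.ncard) (Set.toFinite _) ⟨G n, hG⟩
  by_cases h : Nonempty (K ≃g H n)
  · obtain ⟨φ⟩ := h
    have e : K.edgeSet.ncard = (H n).edgeSet.ncard := by
      rw [← Nat.card_coe_set_eq, ← Nat.card_coe_set_eq]
      exact Nat.card_congr φ.mapEdgeSet
    refine ⟨G n, hG, fun K' hK' => ?_, not_iso n hn⟩
    rw [card_eq n hn, ← e]
    exact hmin K' hK'
  · exact ⟨K, hK, hmin, not_nonempty_iff.1 h⟩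

end Pool.Agent.Results.MP_645dd0_co.Counter
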